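import Pool.Agent.Q49.EF.Basic

/-!
# Effective Shafarevich conjecture for curves: exact reductions

Numbers are used as codes: `k` for pairs `(K, T)`, and `x` for curves over `K`. An algorithm is a
computable function (Mathlib's `Computable`). Question Q1 says that there is an algorithm which
computes from `K`, `T` and `g ≥ 1` a bound for the heights of all curves of genus `g` over `K` with good
reduction outside `T`.

**Theorem.** Let `k₀ = (K₀, T₀)`, `n ≥ 3` and `N ≥ 1`. The following are equivalent.

1. Question Q1.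
2. There is an algorithm which computes from `K`, `T` and `g ≥ 2` a bound for the heights of the curves `X`
   of genus `g` over `K` with good reduction outside `T` for which the symmetric group `S_n` acts freely on
   `X` over `K` and all points of order dividing `N` of the Jacobian are rational, for all pairs
   `(K, T)` above `(K₀, T₀)`.
3. There is an algorithm which computes from `K`, `T` and `g ≥ 2` the finite list of all curves of genus `g`
   over `K` with good reduction outside `T`.
4. There is an algorithm which computes from `K`, `T` and `g ≥ 2` the number of these curves.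
5. There is an algorithm which computes from `K`, `T` and `g ≥ 2` a number `c` such that for each of these
   curves there is another one of height at most `c` with an isogenous Jacobian.
6. There is an algorithm which computes from `K`, `T` and `g ≥ 2` the number of isogeny classes of the
   Jacobians of these curves.
7. There is an algorithm which decides for `K`, `T`, `g ≥ 2` and a list of polynomials (with code `a`), one
   for each place in the finite set `Σ(K, T, g)` below, if there is one of these curves for which they are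
   the characteristic polynomials of the Frobenius elements at these places.

Since every finite group is a subgroup of some `S_n`, it is by (2) enough to treat curves with a free
action of any given finite group. Known facts (`IsSetting`): see the comments there. The set
`Σ(K, T, g)` is a finite set of places outside `T`, computable from `K`, `T` and `g`, such that abelian
varieties of dimension `g` over `K` with good reduction outside `T` are isogenous if they have the same
characteristic polynomials of Frobenius at these places (Faltings). For (2): let `X` be a curve of genus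
`g ≥ 2` over `K` with good reduction outside `T`, and let `T'` be obtained from `T` by adding the places
above the primes at most `n` and those dividing `N`. The Galois group acts on the conjugacy classes of
surjections from the geometric fundamental group of `X` to `S_n` (there are some, as `S_n` is generated by
two elements, and at most `(n!)^(2g)`) and on the `N`-torsion points; the action is unramified outside
`T'`; a surjection with fixed class extends uniquely to the arithmetic fundamental group, as `S_n` has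
trivial center. The finitely many extensions of `K` of bounded degree unramified outside `T'` can be
computed (Hermite and Minkowski); in this way one gets a computable extension `K'` over which there is an
étale Galois cover `Y → X` with group `S_n` and with good reduction outside `T'`. Finally, the Jacobian
of `X` is isogenous (by an isogeny of bounded degree) to an abelian subvariety of the Jacobian of `Y`
which has a complement for which the intersection is of bounded order, and stable heights are bounded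
below (Bost).
-/

set_option autoImplicit false

namespace Pool.Agent.Results.MP_f89135_nt.ExactReductions

open Pool.Agent.Q49.EF

/-- Curves over number fields. -/
structure Setting where
  /-- `Good k g x`: `x` is the least code of a curve of genus `g` over `K` (isomorphic curves are identified)
  which has good reduction outside `T`; here `k` is the code of `(K, T)` -/
  Good : ℕ → ℕ → ℕ → Prop
  /-- the height `h_F` of the curve with code `x` -/
  h : ℕ → ℝ
  /-- `Le k k'`: the field `K'` contains `K`, and `T'` contains all places above `T` -/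
  Le : ℕ → ℕ → Prop
  /-- the Jacobians of the curves are isogenous over `K` -/
  Isog : ℕ → ℕ → Prop
  /-- the group `S_n` acts on the curve over `K` without fixed points -/
  Acts : ℕ → ℕ → Prop
  /-- all points of order dividing `N` of the Jacobian are rational over `K` -/
  Level : ℕ → ℕ → Prop
  /-- `frob ((k, g), x)`: the code of the list of the characteristic polynomials of Frobenius for the
  Jacobian of the curve at the places in `Σ(K, T, g)` -/
  frob : (ℕ × ℕ) × ℕ → ℕ

/-- The known facts. -/
structure IsSetting (D : Setting) : Prop where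
  /-- for `g ≥ 2` one can decide isomorphism, good reduction and being a curve of genus `g` -/
  decidable : ComputablePred fun z : (ℕ × ℕ) × ℕ => 2 ≤ z.1.2 ∧ D.Good z.1.1 z.1.2 z.2
  /-- Faltings -/
  finite : ∀ k g, 2 ≤ g → {x | D.Good k g x}.Finite
  /-- genus one: Coates; Fuchs, von Känel and Wüstholz -/
  genus_one : ∃ c : ℕ → ℕ, Computable c ∧ ∀ k x, D.Good k 1 x → D.h x ≤ c k
  /-- upper bounds for the height of a given curve can be computed -/
  upper : ∃ u : ℕ → ℕ, Computable u ∧ ∀ k g x, 2 ≤ g → D.Good k g x → D.h x ≤ u x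
  /-- curves of genus `g ≥ 2` with good reduction outside `T` and with bounded height can be found
  effectively -/
  northcott : ∃ B : (ℕ × ℕ) × ℕ → ℕ, Computable B ∧ ∀ k g m x : ℕ, 2 ≤ g → D.Good k g x →
    D.h x ≤ m → x < B ((k, g), m)
  frob_computable : Computable D.frob
  /-- by the Weil bounds there are only finitely many possible polynomials -/
  weil : ∃ w : ℕ × ℕ → ℕ, Computable w ∧ ∀ k g x, 2 ≤ g → D.Good k g x →
    D.frob ((k, g), x) < w (k, g)
  /-- Faltings -/
  faltings : ∀ k g x y, 2 ≤ g → D.Good k g x → D.Good k g y →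
    (D.frob ((k, g), x) = D.frob ((k, g), y) ↔ D.Isog x y)
  /-- the isogeny theorem (Masser and Wüstholz; Gaudron and Rémond) -/
  isogeny : ∃ κ : (ℕ × ℕ) × ℕ → ℕ, Computable κ ∧ ∀ k g m x y : ℕ, 2 ≤ g → D.Good k g x → D.Good k g y →
    D.Isog x y → D.h y ≤ m → D.h x ≤ κ ((k, g), m)
  /-- étale covers with group `S_n`, see above; `e` gives the code of `(K', T')`, and `G` the genus
  `n! (g - 1) + 1` -/
  cover : ∀ k₀ n N : ℕ, 3 ≤ n → 1 ≤ N → ∃ e G s : ℕ × ℕ → ℕ, Computable e ∧ Computable G ∧
    Computable s ∧ ∀ k g x, 2 ≤ g → D.Good k g x → D.Le k₀ (e (k, g)) ∧ 2 ≤ G (k, g) ∧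
      ∃ y, D.Good (e (k, g)) (G (k, g)) y ∧ D.Acts n y ∧ D.Level N y ∧ D.h x ≤ D.h y + s (k, g)

/-- the isogeny classes of the Jacobians of the curves of genus `g` over `K` with good reduction
outside `T`, seen as sets of curves -/
def classes (D : Setting) (k g : ℕ) : Set (Set ℕ) :=
  {S | ∃ x, D.Good k g x ∧ S = {y | D.Good k g y ∧ D.Isog x y}}

variable {D : Setting}

/-- (1) -/
def Q1 (D : Setting) : Prop :=
  ∃ c : ℕ × ℕ → ℕ, Computable c ∧ ∀ k g x, 1 ≤ g → D.Good k g x → D.h x ≤ c (k, g)

/-- bounds for the codes -/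
def Codes (D : Setting) : Prop :=
  ∃ B : ℕ × ℕ → ℕ, Computable B ∧ ∀ k g x, 2 ≤ g → D.Good k g x → x < B (k, g)

/-- (5) -/
def One (D : Setting) : Prop :=
  ∃ c : ℕ × ℕ → ℕ, Computable c ∧ ∀ k g x, 2 ≤ g → D.Good k g x →
    ∃ y, D.Good k g y ∧ D.Isog x y ∧ D.h y ≤ c (k, g)

lemma codes_of_q1 (hD : IsSetting D) (h : Q1 D) : Codes D := by
  obtain ⟨c, h1, h2⟩ := h
  obtain ⟨B, h3, h4⟩ := hD.northcott
  refine ⟨fun z => B (z, c z), h3.comp (Computable.pair Computable.id h1), fun k g x hg hx => ?_⟩
  exact h4 k g _ x hg hx (h2 k g x (by omega) hx)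

lemma one_of_codes (hD : IsSetting D) (h : Codes D) : One D := by
  obtain ⟨B, h1, h2⟩ := h
  obtain ⟨u, h3, h4⟩ := hD.upper
  have h5 : Computable fun z : (ℕ × ℕ) × ℕ => u z.2 := h3.comp Computable.snd
  refine ⟨fun z => mx (fun z : (ℕ × ℕ) × ℕ => u z.2) z (B z),
    mx_comp h5 h1, fun k g x hg hx => ?_⟩
  refine ⟨x, hx, (hD.faltings k g x x hg hx hx).mp rfl, (h4 k g x hg hx).trans ?_⟩
  exact_mod_cast le_mx (fun z : (ℕ × ℕ) × ℕ => u z.2) (k, g) (h2 k g x hg hx)

lemma q1_of_one (hD : IsSetting D) (h : One D) : Q1 D := by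
  obtain ⟨c, h1, h2⟩ := h
  obtain ⟨κ, h3, h4⟩ := hD.isogeny
  obtain ⟨c₁, h5, h6⟩ := hD.genus_one
  refine ⟨fun z => c₁ z.1 + κ (z, c z), ?_, fun k g x hg hx => ?_⟩
  · exact Primrec.nat_add.to_comp.comp (h5.comp Computable.fst)
      (h3.comp (Computable.pair Computable.id h1))
  · rcases Nat.lt_or_ge g 2 with hg' | hg'
    · obtain rfl : g = 1 := by omega
      refine (h6 k x hx).trans ?_
      push_cast
      have : (0 : ℝ) ≤ (κ ((k, 1), c (k, 1)) : ℝ) := Nat.cast_nonneg _
      linarith
    · obtain ⟨y, h7, h8, h9⟩ := h2 k g x hg' hx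
      refine (h4 k g _ x y hg' hx h7 h8 h9).trans ?_
      push_cast
      have : (0 : ℝ) ≤ (c₁ k : ℝ) := Nat.cast_nonneg _
      linarith

/-- **Effective Shafarevich conjecture for curves: exact reductions.** See the explanations above. -/
theorem result (hD : IsSetting D) (k₀ n N : ℕ) (hn : 3 ≤ n) (hN : 1 ≤ N) : List.TFAE [
    ∃ c : ℕ × ℕ → ℕ, Computable c ∧ ∀ k g x, 1 ≤ g → D.Good k g x → D.h x ≤ c (k, g),
    ∃ c : ℕ × ℕ → ℕ, Computable c ∧ ∀ k g x, 2 ≤ g → D.Le k₀ k → D.Good k g x → D.Acts n x →
      D.Level N x → D.h x ≤ c (k, g),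
    ∃ f : ℕ × ℕ → List ℕ, Computable f ∧ ∀ k g, 2 ≤ g → ∀ x, x ∈ f (k, g) ↔ D.Good k g x,
    ∃ m : ℕ × ℕ → ℕ, Computable m ∧ ∀ k g, 2 ≤ g → {x | D.Good k g x}.ncard = m (k, g),
    ∃ c : ℕ × ℕ → ℕ, Computable c ∧ ∀ k g x, 2 ≤ g → D.Good k g x →
      ∃ y, D.Good k g y ∧ D.Isog x y ∧ D.h y ≤ c (k, g),
    ∃ m : ℕ × ℕ → ℕ, Computable m ∧ ∀ k g, 2 ≤ g → (classes D k g).ncard = m (k, g),
    ComputablePred fun z : (ℕ × ℕ) × ℕ =>
      2 ≤ z.1.2 ∧ ∃ x, D.Good z.1.1 z.1.2 x ∧ D.frob (z.1, x) = z.2] := by
  classical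
  obtain ⟨p, hp, hp'⟩ := ComputablePred.computable_iff.mp hD.decidable
  have hpi : ∀ k g x, p ((k, g), x) = true ↔ 2 ≤ g ∧ D.Good k g x := fun k g x =>
    (iff_of_eq (congrFun hp' ((k, g), x))).symm
  have hset : ∀ k g, 2 ≤ g → {x | p ((k, g), x) = true} = {x | D.Good k g x} := by
    intro k g hg
    ext x
    exact (hpi k g x).trans ⟨fun h => h.2, fun h => ⟨hg, h⟩⟩
  have hfin : ∀ z : ℕ × ℕ, {x | p (z, x) = true}.Finite := by
    rintro ⟨k, g⟩
    by_cases hg : 2 ≤ g
    · rw [hset k g hg]
      exact hD.finite k g hg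
    · convert Set.finite_empty (α := ℕ)
      ext x
      refine ⟨fun h => absurd ((hpi k g x).mp h).1 hg, fun h => absurd h (by simp)⟩
  tfae_have 1 → 2 := fun ⟨c, h1, h2⟩ => ⟨c, h1, fun k g x hg _ hx _ _ => h2 k g x (by omega) hx⟩
  tfae_have 2 → 1 := by
    rintro ⟨c, h1, h2⟩
    obtain ⟨e, G, s, h3, h4, h5, h6⟩ := hD.cover k₀ n N hn hN
    obtain ⟨c₁, h7, h8⟩ := hD.genus_one
    refine ⟨fun z => c₁ z.1 + (c (e z, G z) + s z), ?_, fun k g x hg hx => ?_⟩
    · exact Primrec.nat_add.to_comp.comp (h7.comp Computable.fst)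
        (Primrec.nat_add.to_comp.comp (h1.comp (Computable.pair h3 h4)) h5)
    · rcases Nat.lt_or_ge g 2 with hg' | hg'
      · obtain rfl : g = 1 := by omega
        refine (h8 k x hx).trans ?_
        exact_mod_cast Nat.le_add_right _ _
      · obtain ⟨h9, h10, y, h11, h12, h13, h14⟩ := h6 k g x hg' hx
        have h15 := h2 _ _ y h10 h9 h11 h12 h13
        push_cast
        have : (0 : ℝ) ≤ (c₁ k : ℝ) := Nat.cast_nonneg _
        linarith
  tfae_have 1 → 5 := fun h => one_of_codes hD (codes_of_q1 hD h)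
  tfae_have 5 → 1 := fun h => q1_of_one hD h
  tfae_have 1 → 3 := by
    intro h
    obtain ⟨B, h1, h2⟩ := codes_of_q1 hD h
    obtain ⟨f, h3, h4⟩ := list_of_bound hp h1 fun z x hx =>
      h2 z.1 z.2 x ((hpi z.1 z.2 x).mp hx).1 ((hpi z.1 z.2 x).mp hx).2
    exact ⟨f, h3, fun k g hg x => (h4 (k, g) x).trans ((hpi k g x).trans
      ⟨fun h => h.2, fun h => ⟨hg, h⟩⟩)⟩
  tfae_have 3 → 5 := by
    rintro ⟨f, h1, h2⟩
    obtain ⟨B, h3, h4⟩ := list_bound h1
    exact one_of_codes hD ⟨B, h3, fun k g x hg hx => h4 (k, g) x ((h2 k g hg x).mpr hx)⟩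
  tfae_have 1 → 4 := by
    intro h
    obtain ⟨B, h1, h2⟩ := codes_of_q1 hD h
    obtain ⟨m, h3, h4⟩ := card_of_bound hp h1 fun z x hx =>
      h2 z.1 z.2 x ((hpi z.1 z.2 x).mp hx).1 ((hpi z.1 z.2 x).mp hx).2
    refine ⟨m, h3, fun k g hg => ?_⟩
    rw [← h4 (k, g), hset k g hg]
  tfae_have 4 → 5 := by
    rintro ⟨m, h1, h2⟩
    -- for `g < 2` the set of all `x` with `p` is empty
    have h3 : Computable fun z : ℕ × ℕ => cond (decide (2 ≤ z.2)) (m z) 0 :=
      Computable.cond ((Primrec.nat_le.decide.comp (Primrec.const 2) Primrec.snd).to_comp) h1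
        (Computable.const 0)
    obtain ⟨B, h4, h5⟩ := bound_of_card hp hfin h3 (by
      rintro ⟨k, g⟩
      by_cases hg : 2 ≤ g
      · rw [hset k g hg, h2 k g hg]
        simp [hg]
      · have : {x | p ((k, g), x) = true} = ∅ := by
          ext x
          refine ⟨fun h => absurd ((hpi k g x).mp h).1 hg, fun h => absurd h (by simp)⟩
        rw [this]
        simp [hg])
    exact one_of_codes hD ⟨B, h4, fun k g x hg hx => h5 (k, g) x ((hpi k g x).mpr ⟨hg, hx⟩)⟩
  -- the first curve in each isogeny class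
  have hq := fst_computable hp hD.frob_computable
  have hqfin : ∀ z : ℕ × ℕ, {x | fst p D.frob (z, x) = true}.Finite := fun z =>
    (hfin z).subset fun x hx => ((fst_iff p D.frob z x).mp hx).1
  have hcl : ∀ k g, 2 ≤ g → (classes D k g).ncard = {x | fst p D.frob ((k, g), x) = true}.ncard := by
    intro k g hg
    have h1 : classes D k g = (fun x => {y | D.Good k g y ∧ D.Isog x y}) ''
        {x | fst p D.frob ((k, g), x) = true} := by
      ext S
      constructor
      · rintro ⟨x, h1, rfl⟩
        obtain ⟨y, -, h2, h3⟩ := exists_fst p D.frob (k, g) x ((hpi k g x).mpr ⟨hg, h1⟩)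
        refine ⟨y, h2, ?_⟩
        have h4 : D.Good k g y := ((hpi k g y).mp ((fst_iff _ _ _ _).mp h2).1).2
        ext w
        change (D.Good k g w ∧ D.Isog y w) ↔ (D.Good k g w ∧ D.Isog x w)
        refine and_congr_right fun hw => ?_
        rw [← hD.faltings k g y w hg h4 hw, ← hD.faltings k g x w hg h1 hw, h3]
      · rintro ⟨x, h1, rfl⟩
        exact ⟨x, ((hpi k g x).mp ((fst_iff _ _ _ _).mp h1).1).2, rfl⟩
    rw [h1]
    refine Set.InjOn.ncard_image ?_
    intro x hx y hy hxy
    have h2 : D.Good k g x := ((hpi k g x).mp ((fst_iff _ _ _ _).mp hx).1).2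
    have h3 : D.Good k g y := ((hpi k g y).mp ((fst_iff _ _ _ _).mp hy).1).2
    have h4 : y ∈ {w | D.Good k g w ∧ D.Isog y w} := ⟨h3, (hD.faltings k g y y hg h3 h3).mp rfl⟩
    rw [← show {w | D.Good k g w ∧ D.Isog x w} = {w | D.Good k g w ∧ D.Isog y w} from hxy] at h4
    exact fst_inj p D.frob (k, g) hx hy ((hD.faltings k g x y hg h2 h3).mpr h4.2)
  tfae_have 1 → 6 := by
    intro h
    obtain ⟨B, h1, h2⟩ := codes_of_q1 hD h
    obtain ⟨m, h3, h4⟩ := card_of_bound hq h1 fun z x hx =>
      h2 z.1 z.2 x ((hpi z.1 z.2 x).mp ((fst_iff _ _ _ _).mp hx).1).1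
        ((hpi z.1 z.2 x).mp ((fst_iff _ _ _ _).mp hx).1).2
    exact ⟨m, h3, fun k g hg => (hcl k g hg).trans (h4 (k, g))⟩
  tfae_have 6 → 5 := by
    rintro ⟨m, h1, h2⟩
    have h3 : Computable fun z : ℕ × ℕ => cond (decide (2 ≤ z.2)) (m z) 0 :=
      Computable.cond ((Primrec.nat_le.decide.comp (Primrec.const 2) Primrec.snd).to_comp) h1
        (Computable.const 0)
    obtain ⟨B, h4, h5⟩ := bound_of_card hq hqfin h3 (by
      rintro ⟨k, g⟩
      by_cases hg : 2 ≤ g
      · rw [← hcl k g hg, h2 k g hg]
        simp [hg]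
      · have : {x | fst p D.frob ((k, g), x) = true} = ∅ := by
          ext x
          refine ⟨fun h => absurd ((hpi k g x).mp ((fst_iff _ _ _ _).mp h).1).1 hg,
            fun h => absurd h (by simp)⟩
        rw [this]
        simp [hg])
    obtain ⟨u, h6, h7⟩ := hD.upper
    have h8 : Computable fun z : (ℕ × ℕ) × ℕ => u z.2 := h6.comp Computable.snd
    refine ⟨fun z => mx (fun z : (ℕ × ℕ) × ℕ => u z.2) z (B z),
      mx_comp h8 h4, fun k g x hg hx => ?_⟩
    obtain ⟨y, -, h9, h10⟩ := exists_fst p D.frob (k, g) x ((hpi k g x).mpr ⟨hg, hx⟩)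
    have h11 : D.Good k g y := ((hpi k g y).mp ((fst_iff _ _ _ _).mp h9).1).2
    refine ⟨y, h11, (hD.faltings k g x y hg hx h11).mp h10.symm, (h7 k g y hg h11).trans ?_⟩
    exact_mod_cast le_mx (fun z : (ℕ × ℕ) × ℕ => u z.2) (k, g) (h5 (k, g) y h9)
  -- the predicate `p` together with the value of `frob`
  have hr : Computable fun w : ((ℕ × ℕ) × ℕ) × ℕ => p (w.1.1, w.2) && (D.frob (w.1.1, w.2) == w.1.2) := by
    have a1 : Computable fun w : ((ℕ × ℕ) × ℕ) × ℕ => (w.1.1, w.2) :=
      Computable.pair (Computable.fst.comp Computable.fst) Computable.snd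
    exact Primrec.and.to_comp.comp (hp.comp a1)
      (Primrec.beq.to_comp.comp (hD.frob_computable.comp a1) (Computable.snd.comp Computable.fst))
  tfae_have 1 → 7 := by
    intro h
    obtain ⟨B, h1, h2⟩ := codes_of_q1 hD h
    refine ComputablePred.computable_iff.mpr ⟨fun z => ex
      (fun w : ((ℕ × ℕ) × ℕ) × ℕ => p (w.1.1, w.2) && (D.frob (w.1.1, w.2) == w.1.2)) z (B z.1),
      ex_comp hr (h1.comp Computable.fst), ?_⟩
    funext z
    obtain ⟨⟨k, g⟩, a⟩ := z
    refine propext (Iff.trans ?_ (ex_iff _ _ _).symm)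
    constructor
    · rintro ⟨hg, x, hx, hxa⟩
      refine ⟨x, h2 k g x hg hx, ?_⟩
      rw [Bool.and_eq_true, beq_iff_eq]
      exact ⟨(hpi k g x).mpr ⟨hg, hx⟩, hxa⟩
    · rintro ⟨x, -, hx⟩
      rw [Bool.and_eq_true, beq_iff_eq] at hx
      exact ⟨((hpi k g x).mp hx.1).1, x, ((hpi k g x).mp hx.1).2, hx.2⟩
  tfae_have 7 → 5 := by
    intro h
    obtain ⟨q, h1, h2⟩ := ComputablePred.computable_iff.mp h
    have h3 : ∀ k g a, q ((k, g), a) = true ↔ 2 ≤ g ∧ ∃ x, D.Good k g x ∧ D.frob ((k, g), x) = a :=
      fun k g a => (iff_of_eq (congrFun h2 ((k, g), a))).symm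
    -- search for a curve if there is one
    have h4 : Computable fun w : ((ℕ × ℕ) × ℕ) × ℕ =>
        !(q w.1) || (p (w.1.1, w.2) && (D.frob (w.1.1, w.2) == w.1.2)) :=
      Primrec.or.to_comp.comp (Primrec.not.to_comp.comp (h1.comp Computable.fst)) hr
    obtain ⟨f, h5, h6⟩ := search h4 fun z => by
      obtain ⟨⟨k, g⟩, a⟩ := z
      by_cases hq' : q ((k, g), a) = true
      · obtain ⟨hg, x, h7, h8⟩ := (h3 k g a).mp hq'
        refine ⟨x, ?_⟩
        have h9 := (hpi k g x).mpr ⟨hg, h7⟩
        simp [h9, h8]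
      · refine ⟨0, ?_⟩
        simp only [Bool.not_eq_true] at hq'
        simp [hq']
    obtain ⟨u, h7, h8⟩ := hD.upper
    obtain ⟨w, h9, h10⟩ := hD.weil
    refine ⟨fun z => mx (fun z => u (f z)) z (w z),
      mx_comp (h7.comp h5) h9, fun k g x hg hx => ?_⟩
    have h11 : q ((k, g), D.frob ((k, g), x)) = true := (h3 _ _ _).mpr ⟨hg, x, hx, rfl⟩
    have h12 := h6 ((k, g), D.frob ((k, g), x))
    simp only [h11, Bool.not_true, Bool.false_or, Bool.and_eq_true, beq_iff_eq] at h12
    have h13 : D.Good k g (f ((k, g), D.frob ((k, g), x))) := ((hpi k g _).mp h12.1).2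
    refine ⟨_, h13, (hD.faltings k g x _ hg hx h13).mp h12.2.symm, (h8 k g _ hg h13).trans ?_⟩
    exact_mod_cast le_mx (fun z => u (f z)) (k, g) (h10 k g x hg hx)
  tfae_finish

end Pool.Agent.Results.MP_f89135_nt.ExactReductions
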