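import Pool.Agent.Results.MP_78e9a5_nt.MembersNearPowers

/-!
# A linear effective height bound for almost all curves of a family near powers, for all sets `T` at once

Let `X_t`, `t ∈ ℤ ^ d`, be a family of curves over a number field `K`, and suppose that there is a polynomial `D` (a discriminant) such
that the quadratic extension given by `√D(t)` is unramified at the primes `p` at which `X_t` has good reduction, up to finitely many
`p`. Examples over `ℚ`:
* the hyperelliptic curves `y ^ 2 = f(x)`, the coefficients of `f` being the parameters (or fixed integers): the field generated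
  by the points of order two of the Jacobian contains the square root of the discriminant of `f`. For these curves Q1 is known
  (de Jong and Rémond); the bound below is linear in the logarithm of the product of the primes in `T`;
* the plane curves of a given odd degree, for which Q1 is not known: the Galois group preserves the quadratic form on the points of order
  two of the Jacobian which belongs to the theta characteristic `O((deg - 3) / 2)`, and its Dickson invariant is the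
  character of `ℚ(√(± c disc))`, since it is nontrivial on the transvections given by the vanishing cycles (Beauville).

Q1 asks for an effective bound `c(K, T, g)` for the stable Faltings height of the curves of genus `g` with good reduction outside `T`.

**Theorem.** Let `P` be a set of prime numbers with at least `y ^ θ` elements up to `y` for large `y` and `κ > 0`, such that for `p ∈ P` the
number of the residue classes modulo `p` at which `D` is a square different from zero, and the number of those at which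
`D` is not a square, are at least `κ p ^ d` (Lang-Weil, if `D` is not a constant times a square). Let `h` be a function with
`h(t) ≤ C₁ log H` for all `t` with coordinates bounded by `H ≥ 2` (such as the stable Faltings height `h_F(X_t)`, where it is
defined). Let `e_l > 1` be exponents which are not integers, `w_l ≠ 0`; let `i` run through `{1, ..., x} ^ m` (for example `m = 1`), and
consider ALL integral points `t = a ± n` with `|n_l - β_l - w_l i(μ l) ^ (e_l)| ≤ y ^ W`, for integral vectors `a` and real shifts `β_l` of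
absolute value at most `x ^ F`. Then there are `c > 0` and `C` such that for all large `y` and `y ≤ x ^ c`, for all but at most
`x ^ m / y ^ A` of the `i`: ALL these `t` satisfy `D(t) ≠ 0` and

  `h(t) ≤ C log ∏_{q ∈ T} q`   **for every finite set `T` of primes outside which `X_t` has good reduction.**

Good reduction at `p` is used in the weak form that for one prime number `ℓ ≠ p` the `ℓ`-adic representation is unramified at `p`
(`Good`). The number of the exceptional `i` is at most `x ^ (m - c' A)` for `y = x ^ c'`, `c' < c`. The constants `c` and `C` depend only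
on the family, `P`, `κ`, `θ`, `C₁`, `e`, `w`, `μ`, `A`, `W` and `F`.

The proof: by `MP_78e9a5_nt.MembersNearPowers` the product of the primes of bad reduction is larger than `x ^ c` for all these `t`,
for all but few `i`, while `h(t)` is at most a constant times `log x`.
-/

set_option autoImplicit false

namespace Pool.Agent.Results.MP_f89135_nt.HeightsNearPowers

open Module
open Pool.Agent.Q56.WL (Setting ForAlmostAll exceptions)
open Pool.Agent.Results.MP_78e9a5_nt.MembersNearPowers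

/-- `D(t) ≠ 0`, and `h(t) ≤ C log ∏_{q ∈ T} q` for every finite set `T` of prime numbers outside which the curve `X_t` has good
reduction. -/
def LinearBound {Γ : Type} [Group Γ] {V : ℕ → Type} [∀ ℓ, AddCommGroup (V ℓ)] [∀ (ℓ : ℕ) [Fact ℓ.Prime], Module ℚ_[ℓ] (V ℓ)]
    {d : ℕ} (X : Family Γ V d) (h : (Fin d → ℤ) → ℝ) (C : ℝ) (t : Fin d → ℤ) : Prop :=
  MvPolynomial.eval t X.disc ≠ 0 ∧ ∀ T : Finset ℕ, (∀ q ∈ T, q.Prime) →
    (∀ p : ℕ, p.Prime → p ∉ T → Good X t p) → h t ≤ C * Real.log ((∏ q ∈ T, q : ℕ) : ℝ)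

/-- **A linear height bound for almost all curves near powers.** See the introduction. -/
theorem result {Γ : Type} [Group Γ] {V : ℕ → Type} [∀ ℓ, AddCommGroup (V ℓ)] [∀ (ℓ : ℕ) [Fact ℓ.Prime], Module ℚ_[ℓ] (V ℓ)]
    {d : ℕ} (X : Family Γ V d) (P : ℕ → Prop) (κ θ : ℝ) (hκ : 0 < κ) (hθ : 0 < θ)
    (hP : ∀ p, P p → p.Prime ∧ κ * (p : ℝ) ^ d ≤ ((squares X.disc p).ncard : ℝ) ∧
      κ * (p : ℝ) ^ d ≤ ((nonsquares X.disc p).ncard : ℝ))
    (hcount : ∃ y₀ : ℕ, ∀ y : ℕ, y₀ ≤ y → (y : ℝ) ^ θ ≤ (({p : ℕ | P p ∧ p ≤ y}).ncard : ℝ))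
    (h : (Fin d → ℤ) → ℝ) (C₁ : ℝ) (hC₁ : 0 ≤ C₁)
    (hh : ∀ (t : Fin d → ℤ) (H : ℝ), 2 ≤ H → (∀ l, |(t l : ℝ)| ≤ H) → h t ≤ C₁ * Real.log H)
    (m : ℕ) (e w : Fin d → ℝ) (μ : Fin d → Fin m) (hs : Setting e w μ) (A W F : ℕ) :
    ∃ c C : ℝ, 0 < c ∧ 0 ≤ C ∧ ∃ y₀ : ℕ, ∀ (a : Fin d → ℤ) (s : Fin d → ℤˣ) (β : Fin d → ℝ) (x y : ℕ), y₀ ≤ y →
      (y : ℝ) ≤ (x : ℝ) ^ c → (∀ l, |(a l : ℝ)| ≤ (x : ℝ) ^ F) → (∀ l, |β l| ≤ (x : ℝ) ^ F) →
      (exceptions x e w β μ ((y : ℝ) ^ W) (fun n => LinearBound X h C (point a s n)) : ℝ) ≤ 1 / (y : ℝ) ^ A * (x : ℝ) ^ m := by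
  classical
  obtain ⟨c, hc, y₀, H⟩ := Pool.Agent.Results.MP_78e9a5_nt.MembersNearPowers.result X P κ θ hκ hθ hP hcount m e w μ hs A W 1
  obtain ⟨c', hc'⟩ : ∃ c' : ℝ, c' = min c 1 := ⟨_, rfl⟩
  have hc'0 : 0 < c' := by rw [hc']; exact lt_min hc one_pos
  have hc'c : c' ≤ c := by rw [hc']; exact min_le_left _ _
  have hc'1 : c' ≤ 1 := by rw [hc']; exact min_le_right _ _
  -- the size of the coordinates
  obtain ⟨E, hE⟩ := exists_nat_ge (∑ l, e l)
  obtain ⟨D₀, hD₀⟩ := exists_nat_ge (3 + ∑ l, |w l|)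
  obtain ⟨R, hR⟩ : ∃ R : ℕ, R = F + W + E + 1 := ⟨_, rfl⟩
  have he0 : ∀ l, 0 ≤ e l := fun l => by linarith [(hs.1 l).1]
  refine ⟨c', C₁ * R / c', hc'0, by positivity, y₀ + D₀ + 2, fun a s β x y hy hyx ha hβ => ?_⟩
  have hy1 : (1 : ℝ) ≤ y := by exact_mod_cast (by omega : 1 ≤ y)
  have hy0 : (0 : ℝ) < y := by linarith
  have hx0 : 1 ≤ x := by
    rcases Nat.eq_zero_or_pos x with h0 | h0
    · rw [h0, Nat.cast_zero, Real.zero_rpow hc'0.ne'] at hyx
      linarith
    · exact h0
  have hx1 : (1 : ℝ) ≤ x := by exact_mod_cast hx0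
  have hxp : (0 : ℝ) < x := by linarith
  have hyx1 : (y : ℝ) ≤ x := by
    refine hyx.trans ?_
    calc (x : ℝ) ^ c' ≤ (x : ℝ) ^ (1 : ℝ) := Real.rpow_le_rpow_of_exponent_le hx1 hc'1
      _ = x := Real.rpow_one _
  have hyc : (y : ℝ) ≤ (x : ℝ) ^ c := hyx.trans (Real.rpow_le_rpow_of_exponent_le hx1 hc'c)
  have hD₀x : (D₀ : ℝ) ≤ x := by
    have : (D₀ : ℝ) ≤ y := by exact_mod_cast (by omega : D₀ ≤ y)
    linarith
  have hx2 : (2 : ℝ) ≤ x := by
    have : (2 : ℝ) ≤ y := by exact_mod_cast (by omega : 2 ≤ y)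
    linarith
  refine le_trans (Nat.cast_le.2 ?_) (H (a, s) β x y (by omega))
  unfold exceptions
  refine Finset.card_le_card fun i hi => ?_
  rw [Finset.mem_filter] at hi ⊢
  obtain ⟨hi1, n, hn, hbad⟩ := hi
  refine ⟨hi1, n, hn, fun hall => hbad ?_⟩
  obtain ⟨z, hz⟩ : ∃ z : ℕ, z = ⌊(x : ℝ) ^ c⌋₊ := ⟨_, rfl⟩
  have hyz : y ≤ z := by rw [hz]; exact Nat.le_floor hyc
  have hzx : (z : ℝ) ≤ (x : ℝ) ^ c := by rw [hz]; exact Nat.floor_le (by positivity)
  obtain ⟨hdisc, hT⟩ := hall z hyz hzx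
  refine ⟨hdisc, fun T hTp hgood => ?_⟩
  have hprod : z ^ 1 < ∏ q ∈ T, q := by
    by_contra hcon
    obtain ⟨p, hp, hpT, hpb⟩ := hT T hTp (not_lt.1 hcon)
    exact hpb (hgood p hp hpT)
  rw [pow_one] at hprod
  have hlog : c' * Real.log x ≤ Real.log ((∏ q ∈ T, q : ℕ) : ℝ) := by
    have h1 : (x : ℝ) ^ c' ≤ ((∏ q ∈ T, q : ℕ) : ℝ) := by
      have h2 : (x : ℝ) ^ c ≤ (z : ℝ) + 1 := by
        rw [hz]
        exact (Nat.lt_floor_add_one _).le
      have h3 : (z : ℝ) + 1 ≤ ((∏ q ∈ T, q : ℕ) : ℝ) := by exact_mod_cast hprod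
      exact (Real.rpow_le_rpow_of_exponent_le hx1 hc'c).trans (h2.trans h3)
    rw [← Real.log_rpow hxp]
    exact Real.log_le_log (by positivity) h1
  -- the height
  have hpos : ∀ k : ℕ, (0 : ℝ) < (x : ℝ) ^ k := fun k => pow_pos hxp k
  have hsize : ∀ l, |((point a s n l : ℤ) : ℝ)| ≤ (x : ℝ) ^ R := by
    intro l
    obtain ⟨j, hj⟩ : ∃ j : ℕ, j = i (μ l) := ⟨_, rfl⟩
    have hjx : (j : ℝ) ≤ x := by
      have h1 := (Fintype.mem_piFinset.1 hi1) (μ l)
      rw [← hj, Finset.mem_Icc] at h1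
      exact_mod_cast h1.2
    have hj0 : (0 : ℝ) ≤ j := Nat.cast_nonneg _
    have h1 : (n l : ℝ) ≤ |β l| + |w l| * (j : ℝ) ^ e l + (y : ℝ) ^ W := by
      have h2 := (abs_le.1 (hn l)).2
      rw [← hj] at h2
      have h3 := le_abs_self (β l)
      have h4 : w l * (j : ℝ) ^ e l ≤ |w l| * (j : ℝ) ^ e l :=
        mul_le_mul_of_nonneg_right (le_abs_self _) (Real.rpow_nonneg hj0 _)
      linarith
    have h2 : |((point a s n l : ℤ) : ℝ)| ≤ |(a l : ℝ)| + n l := by
      have h3 : ((point a s n l : ℤ) : ℝ) = (a l : ℝ) + ((s l : ℤ) : ℝ) * n l := by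
        unfold point
        push_cast
        rfl
      rw [h3]
      refine (abs_add_le _ _).trans ?_
      rw [abs_mul]
      have h4 : |((s l : ℤ) : ℝ)| = 1 := by
        rcases Int.units_eq_one_or (s l) with h | h <;> rw [h] <;> norm_num
      rw [h4, one_mul, Nat.abs_cast]
    have hup : ∀ k : ℕ, k ≤ F + W + E → (x : ℝ) ^ k ≤ (x : ℝ) ^ (F + W + E) := fun k hk =>
      pow_le_pow_right₀ hx1 hk
    have h3 : (j : ℝ) ^ e l ≤ (x : ℝ) ^ (F + W + E) := by
      calc (j : ℝ) ^ e l ≤ (x : ℝ) ^ e l := Real.rpow_le_rpow hj0 hjx (he0 l)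
        _ ≤ (x : ℝ) ^ (E : ℝ) := by
            apply Real.rpow_le_rpow_of_exponent_le hx1
            refine le_trans ?_ hE
            exact Finset.single_le_sum (f := e) (fun l _ => he0 l) (Finset.mem_univ l)
        _ = (x : ℝ) ^ E := Real.rpow_natCast _ _
        _ ≤ _ := hup E (by omega)
    have h4 : (y : ℝ) ^ W ≤ (x : ℝ) ^ (F + W + E) :=
      (pow_le_pow_left₀ hy0.le hyx1 W).trans (hup W (by omega))
    have h5 : |w l| ≤ ∑ l, |w l| := Finset.single_le_sum (f := fun l => |w l|) (fun l _ => abs_nonneg _) (Finset.mem_univ l)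
    have h6 := (ha l).trans (hup F (by omega))
    have h7 := (hβ l).trans (hup F (by omega))
    obtain ⟨Q, hQ⟩ : ∃ Q : ℝ, Q = (x : ℝ) ^ (F + W + E) := ⟨_, rfl⟩
    rw [← hQ] at h3 h4 h6 h7
    have hQ0 : 0 < Q := by rw [hQ]; exact hpos _
    have h8 : |w l| * (j : ℝ) ^ e l ≤ (∑ l, |w l|) * Q :=
      mul_le_mul h5 h3 (Real.rpow_nonneg hj0 _) (Finset.sum_nonneg fun l _ => abs_nonneg _)
    have h9 : |((point a s n l : ℤ) : ℝ)| ≤ (3 + ∑ l, |w l|) * Q := by
      calc |((point a s n l : ℤ) : ℝ)| ≤ |(a l : ℝ)| + n l := h2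
        _ ≤ Q + (Q + (∑ l, |w l|) * Q + Q) := by linarith
        _ = _ := by ring
    refine h9.trans ?_
    rw [hR, pow_succ, ← hQ, mul_comm]
    exact mul_le_mul_of_nonneg_left (hD₀.trans hD₀x) hQ0.le
  have hR2 : (2 : ℝ) ≤ (x : ℝ) ^ R := by
    calc (2 : ℝ) ≤ x := hx2
      _ = (x : ℝ) ^ 1 := (pow_one _).symm
      _ ≤ (x : ℝ) ^ R := pow_le_pow_right₀ hx1 (by omega)
  have h1 := hh (point a s n) ((x : ℝ) ^ R) hR2 hsize
  rw [Real.log_pow] at h1
  refine h1.trans ?_
  calc C₁ * (R * Real.log x) = C₁ * R / c' * (c' * Real.log x) := by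
        field_simp
    _ ≤ C₁ * R / c' * Real.log ((∏ q ∈ T, q : ℕ) : ℝ) := mul_le_mul_of_nonneg_left hlog (by positivity)

end Pool.Agent.Results.MP_f89135_nt.HeightsNearPowers
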