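import Pool.Agent.Q328.AC.MostN

/-!
# The effective Shafarevich conjecture for curves: weak algorithms are enough

Numbers are used as codes of number fields `K` and of curves over number fields; an algorithm is a
computable function (Mathlib's `Computable`). For `N ≥ 1` let `T_N` be the set of the places of `K` which
divide `N` (and the infinite ones). Every finite set `T` of places is contained in `T_N` for some `N`
computed from `T`, and good reduction outside `T` implies good reduction outside `T_N`. So question Q1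
says that there is an algorithm which computes from `K`, `N` and `g ≥ 1` a bound for the heights `h_F(X)`
of all curves `X` of genus `g` over `K` with good reduction outside `T_N`.

**Theorem.** The following are equivalent.

1. Question Q1.
2. (Average case.) There is an algorithm which computes from `K`, `g ≥ 2` and `N` a number which is a
   bound for these heights for most `N`: for all `K`, `g ≥ 2` and `X` there are at most
   `X / ψ (K, g, X)` exceptions `N` with `1 ≤ N ≤ X`. Here `ψ` is some computable function such that for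
   all `K`, `g`, `m` there is `X ≥ m` with `ψ (K, g, X) ≥ m`.
3. There is an algorithm which computes from `K`, `g ≥ 2` and `N` a number which is for most `N`, in the
   same sense, the number of isomorphism classes of curves of genus `g` over `K` with good reduction
   outside `T_N`.
4. (Frequency.) For some `n ≥ 1` there is an algorithm which gives for any `n` different questions of
   the form Are there more than `m` isomorphism classes of curves of genus `g ≥ 2` over `K` with good
   reduction outside `T_N`? `n` answers, of which more than half are right.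
5. (Cardinality.) For some `n ≥ 1` there is an algorithm which computes for any `n` different such
   questions a number `e ≤ n` which is not the number of questions with the answer yes.

So it is not necessary to know for which `N` in (2) and (3), and which of the answers in (4), the
algorithm is right; and in (5) it says only that one out of `n + 1` possibilities is wrong.
-/

set_option autoImplicit false

namespace Pool.Agent.Results.MP_f89135_nt.WeakAlgorithms

open Pool.Agent.Q49.EF Pool.Agent.Q328.AC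

/-- Curves over number fields. -/
structure Setting where
  /-- `Good ((k, g), N) x`: `x` is the least code of a curve of genus `g` over the number field `K` with
  code `k` (isomorphic curves are identified) which has good reduction at the finite places not
  dividing `N`; false for `N = 0` -/
  Good : (ℕ × ℕ) × ℕ → ℕ → Prop
  /-- the height `h_F` of the curve with code `x` -/
  h : ℕ → ℝ

/-- The known facts. -/
structure IsSetting (D : Setting) : Prop where
  pos : ∀ b N x, D.Good (b, N) x → 1 ≤ N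
  /-- for `g ≥ 2` one can decide isomorphism, good reduction and being (a code of) a curve of genus `g`
  over `K` -/
  decidable : ComputablePred fun z : ((ℕ × ℕ) × ℕ) × ℕ => 2 ≤ z.1.1.2 ∧ D.Good z.1 z.2
  /-- Faltings -/
  finite : ∀ a : (ℕ × ℕ) × ℕ, 2 ≤ a.1.2 → {x | D.Good a x}.Finite
  /-- genus one: Coates; Fuchs, von Känel and Wüstholz -/
  genus_one : ∃ c : (ℕ × ℕ) × ℕ → ℕ, Computable c ∧ ∀ k N x, D.Good ((k, 1), N) x →
    D.h x ≤ c ((k, 1), N)
  /-- upper bounds for the height of a given curve can be computed -/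
  upper : ∃ u : ℕ → ℕ, Computable u ∧ ∀ (a : (ℕ × ℕ) × ℕ) (x : ℕ), 2 ≤ a.1.2 → D.Good a x → D.h x ≤ u x
  /-- the curves of genus `g ≥ 2` with good reduction outside `T_N` and with bounded height can be found
  effectively -/
  northcott : ∃ B : ((ℕ × ℕ) × ℕ) × ℕ → ℕ, Computable B ∧ ∀ (a : (ℕ × ℕ) × ℕ) (m x : ℕ), 2 ≤ a.1.2 →
    D.Good a x → D.h x ≤ m → x < B (a, m)
  /-- the set `T_N` is contained in `T_{N M}` -/
  mono : ∀ b N M x, 0 < M → D.Good (b, N) x → D.Good (b, N * M) x

variable {D : Setting}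

/-- the curves of genus at least two -/
def G (D : Setting) (a : (ℕ × ℕ) × ℕ) (x : ℕ) : Prop := 2 ≤ a.1.2 ∧ D.Good a x

open Classical in
lemma exists_of_half {M : ℕ} {Q : ℕ → Prop} (h : M < 2 * ((Finset.range M).filter Q).card) :
    ∃ i < M, Q i := by
  obtain ⟨i, hi⟩ := Finset.card_pos.mp (show 0 < ((Finset.range M).filter Q).card by omega)
  rw [Finset.mem_filter, Finset.mem_range] at hi
  exact ⟨i, hi⟩

open Classical in
lemma half_mono {M : ℕ} {Q R : ℕ → Prop} (h : M < 2 * ((Finset.range M).filter Q).card)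
    (hQR : ∀ i, Q i → R i) : M < 2 * ((Finset.range M).filter R).card := by
  refine lt_of_lt_of_le h (Nat.mul_le_mul_left 2 (Finset.card_le_card fun i hi => ?_))
  rw [Finset.mem_filter] at hi ⊢
  exact ⟨hi.1, hQR i hi.2⟩

attribute [local irreducible] Nat.unpair Nat.pair

/-- **Weak algorithms are enough.** See the explanations above. -/
theorem result (hD : IsSetting D) : List.TFAE [
    ∃ c : (ℕ × ℕ) × ℕ → ℕ, Computable c ∧ ∀ k g N x, 1 ≤ g → D.Good ((k, g), N) x →
      D.h x ≤ c ((k, g), N),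
    ∃ c : (ℕ × ℕ) × ℕ → ℕ, Computable c ∧ MostN fun a => 2 ≤ a.1.2 → ∀ x, D.Good a x → D.h x ≤ c a,
    ∃ n : (ℕ × ℕ) × ℕ → ℕ, Computable n ∧ MostN fun a => 2 ≤ a.1.2 → {x | D.Good a x}.ncard = n a,
    Frequent fun z : ((ℕ × ℕ) × ℕ) × ℕ => 2 ≤ z.1.1.2 ∧ z.2 < {x | D.Good z.1 x}.ncard,
    Excludes fun z : ((ℕ × ℕ) × ℕ) × ℕ => 2 ≤ z.1.1.2 ∧ z.2 < {x | D.Good z.1 x}.ncard] := by
  obtain ⟨p, hp, hp'⟩ := ComputablePred.computable_iff.mp hD.decidable
  have hpi : ∀ a x, p (a, x) = true ↔ G D a x := fun a x => (iff_of_eq (congrFun hp' (a, x))).symm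
  have hps : ∀ a : (ℕ × ℕ) × ℕ, 2 ≤ a.1.2 → {x | D.Good a x} = {x | p (a, x) = true} := fun a ha =>
    Set.ext fun x => ⟨fun h => (hpi a x).mpr ⟨ha, h⟩, fun h => ((hpi a x).mp h).2⟩
  have hp0 : ∀ a : (ℕ × ℕ) × ℕ, ¬ 2 ≤ a.1.2 → {x | p (a, x) = true} = ∅ := fun a ha =>
    Set.eq_empty_iff_forall_notMem.mpr fun x h => ha ((hpi a x).mp h).1
  have hpf : ∀ a, {x | p (a, x) = true}.Finite := fun a => by
    by_cases ha : 2 ≤ a.1.2
    · exact hps a ha ▸ hD.finite a ha
    · rw [hp0 a ha]
      exact Set.finite_empty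
  have hpn : (fun z : ((ℕ × ℕ) × ℕ) × ℕ => 2 ≤ z.1.1.2 ∧ z.2 < {x | D.Good z.1 x}.ncard) =
      fun z => z.2 < {x | p (z.1, x) = true}.ncard := by
    ext z
    by_cases hz : 2 ≤ z.1.1.2
    · rw [hps z.1 hz]
      exact ⟨fun h => h.2, fun h => ⟨hz, h⟩⟩
    · rw [hp0 z.1 hz, Set.ncard_empty]
      exact ⟨fun h => absurd h.1 hz, fun h => absurd h (Nat.not_lt_zero _)⟩
  rw [hpn]
  obtain ⟨u, hu, hu'⟩ := hD.upper
  -- Q1 bounds the codes, and conversely
  have codes : (∃ c : (ℕ × ℕ) × ℕ → ℕ, Computable c ∧ ∀ k g N x, 1 ≤ g → D.Good ((k, g), N) x →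
      D.h x ≤ c ((k, g), N)) →
      ∃ B : (ℕ × ℕ) × ℕ → ℕ, Computable B ∧ ∀ a x, p (a, x) = true → x < B a := by
    rintro ⟨c, h1, h2⟩
    obtain ⟨B, h3, h4⟩ := hD.northcott
    refine ⟨fun a => B (a, c a), h3.comp (Computable.pair Computable.id h1), fun a x hx => ?_⟩
    obtain ⟨h5, h6⟩ := (hpi a x).mp hx
    obtain ⟨⟨k, g⟩, N⟩ := a
    exact h4 _ _ x h5 h6 (h2 k g N x (le_trans (by norm_num) h5) h6)
  have ofp : (∃ c : (ℕ × ℕ) × ℕ → ℕ, Computable c ∧ ∀ a x, G D a x → D.h x ≤ c a) →
      ∃ c : (ℕ × ℕ) × ℕ → ℕ, Computable c ∧ ∀ k g N x, 1 ≤ g → D.Good ((k, g), N) x →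
        D.h x ≤ c ((k, g), N) := by
    rintro ⟨c, h1, h2⟩
    obtain ⟨c₁, h3, h4⟩ := hD.genus_one
    refine ⟨fun a => c₁ a + c a, Computable₂.comp (f := fun x y : ℕ => x + y)
      Primrec.nat_add.to_comp h3 h1, fun k g N x hg hx => ?_⟩
    have h5 : (0 : ℝ) ≤ (c₁ ((k, g), N) : ℝ) := Nat.cast_nonneg _
    have h6 : (0 : ℝ) ≤ (c ((k, g), N) : ℝ) := Nat.cast_nonneg _
    rcases Nat.lt_or_ge g 2 with hg' | hg'
    · obtain rfl : g = 1 := by omega
      have := h4 k N x hx
      push_cast
      linarith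
    · have := h2 ((k, g), N) x ⟨hg', hx⟩
      push_cast
      linarith
  have ofcodes : (∃ B : (ℕ × ℕ) × ℕ → ℕ, Computable B ∧ ∀ a x, p (a, x) = true → x < B a) →
      ∃ c : (ℕ × ℕ) × ℕ → ℕ, Computable c ∧ ∀ a x, G D a x → D.h x ≤ c a := by
    rintro ⟨B, h1, h2⟩
    refine ⟨fun a => mx (fun z : ((ℕ × ℕ) × ℕ) × ℕ => u z.2) a (B a),
      mx_comp (hu.comp Computable.snd) h1, fun a x hx => (hu' a x hx.1 hx.2).trans ?_⟩
    exact_mod_cast le_mx (fun z : ((ℕ × ℕ) × ℕ) × ℕ => u z.2) a (h2 a x ((hpi a x).mpr hx))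
  have comps : ∀ X : (ℕ × ℕ) × ℕ → ℕ, Computable X →
      (Computable fun a : (ℕ × ℕ) × ℕ => X a / a.2) ∧
      Computable fun z : ((ℕ × ℕ) × ℕ) × ℕ => (z.1.1, z.1.2 * (z.2 + 1)) := by
    intro X hX
    have d : Primrec fun z : ℕ × ℕ => z.1 / z.2 := Primrec.nat_div.comp Primrec.fst Primrec.snd
    have m : Primrec fun z : ℕ × ℕ => z.1 * z.2 := Primrec.nat_mul.comp Primrec.fst Primrec.snd
    have e1 : Computable fun a : (ℕ × ℕ) × ℕ => X a / a.2 :=
      Computable.comp (f := fun z : ℕ × ℕ => z.1 / z.2) d.to_comp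
        (Computable.pair hX Computable.snd)
    have e2 : Computable fun z : ((ℕ × ℕ) × ℕ) × ℕ => (z.1.2, z.2 + 1) :=
      Computable.pair (Computable.snd.comp Computable.fst) (Computable.succ.comp Computable.snd)
    have e3 : Computable fun z : ((ℕ × ℕ) × ℕ) × ℕ => z.1.2 * (z.2 + 1) :=
      Computable.comp (f := fun z : ℕ × ℕ => z.1 * z.2) m.to_comp e2
    exact ⟨e1, Computable.pair (Computable.fst.comp Computable.fst) e3⟩
  tfae_have 1 → 2 := fun ⟨c, h1, h2⟩ => ⟨c, h1, mostN_of_forall fun ⟨⟨k, g⟩, N⟩ hg x hx =>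
    h2 k g N x (le_trans (by norm_num) hg) hx⟩
  tfae_have 2 → 1 := by
    rintro ⟨c, h1, h2⟩
    obtain ⟨X, hX, h3⟩ := half_of_mostN h2
    obtain ⟨e1, e2⟩ := comps X hX
    refine ofp (bound_of_half (G := G D) (h := D.h) e1 e2 h1 ?_ ?_)
    · rintro ⟨b, N⟩ ⟨x, hx⟩
      have hN := hD.pos b N x hx.2
      obtain ⟨i, hi, hi'⟩ := exists_of_half (h3 b N hN)
      exact ⟨i, hi, fun y hy => hi' hx.1 y hy.2⟩
    · rintro ⟨b, N⟩ i x hx _
      exact ⟨x, ⟨hx.1, hD.mono b N (i + 1) x (Nat.succ_pos _) hx.2⟩, fun C h => h⟩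
  tfae_have 1 → 3 := by
    intro h
    obtain ⟨B, h1, h2⟩ := codes h
    obtain ⟨n, h3, h4⟩ := card_of_bound hp h1 h2
    exact ⟨n, h3, mostN_of_forall fun a ha => by rw [hps a ha]; exact h4 a⟩
  tfae_have 3 → 1 := by
    rintro ⟨n, h1, h2⟩
    obtain ⟨X, hX, h3⟩ := half_of_mostN h2
    obtain ⟨e1, e2⟩ := comps X hX
    have hd : Computable fun a : (ℕ × ℕ) × ℕ => (decide (1 ≤ a.2) && decide (2 ≤ a.1.2)) :=
      (Primrec.and.comp (Primrec.nat_le.decide.comp (Primrec.const 1) Primrec.snd)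
        (Primrec.nat_le.decide.comp (Primrec.const 2) (Primrec.snd.comp Primrec.fst))).to_comp
    obtain ⟨c, h4, h5⟩ := bound_of_half_card hp hpf (h := D.h) hu
      (fun a x hx => hu' a x ((hpi a x).mp hx).1 ((hpi a x).mp hx).2) e1 e2 h1 hd
      (fun a x hx => by
        obtain ⟨b, N⟩ := a
        obtain ⟨h6, h7⟩ := (hpi _ x).mp hx
        have h8 := hD.pos b N x h7
        have h9 : 2 ≤ b.2 := h6
        simp [h8, h9])
      (P := fun a => 2 ≤ a.1.2 ∧ {x | D.Good a x}.ncard = n a)
      (fun a h => by rw [← hps a h.1]; exact h.2)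
      (fun a ha => by
        obtain ⟨b, N⟩ := a
        simp only [Bool.and_eq_true, decide_eq_true_eq] at ha
        exact half_mono (h3 b N ha.1) fun i hi => ⟨ha.2, hi ha.2⟩)
      (fun a i x hx _ => by
        obtain ⟨b, N⟩ := a
        obtain ⟨h6, h7⟩ := (hpi _ x).mp hx
        exact ⟨x, (hpi _ x).mpr ⟨h6, hD.mono b N (i + 1) x (Nat.succ_pos _) h7⟩, fun C h => h⟩)
    exact ofp ⟨c, h4, fun a x hx => h5 a x ((hpi a x).mpr hx)⟩
  tfae_have 1 → 4 := by
    intro h
    obtain ⟨B, h1, h2⟩ := codes h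
    exact frequent_of_computable (more_of_bound hp h1 h2)
  tfae_have 4 → 5 := excludes_of_frequent
  tfae_have 5 → 1 := by
    intro h
    refine ofp (ofcodes (bound_of_more hp hpf ?_))
    have b5 : Computable fun w : (((ℕ × ℕ) × ℕ) × ℕ) × ℕ => (w.1.1, w.2) :=
      Computable.pair (Computable.fst.comp Computable.fst) Computable.snd
    have b6 : Computable fun w : (((ℕ × ℕ) × ℕ) × ℕ) × ℕ => cnt p w.1.1 w.2 :=
      (cnt_computable hp).comp b5
    have b7 : Computable fun w : (((ℕ × ℕ) × ℕ) × ℕ) × ℕ => (w.1.2, cnt p w.1.1 w.2) :=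
      Computable.pair (Computable.snd.comp Computable.fst) b6
    have hq : Computable fun w : (((ℕ × ℕ) × ℕ) × ℕ) × ℕ => lt' (w.1.2, cnt p w.1.1 w.2) :=
      lt'_computable.comp b7
    have hdec : Primrec fun m : ℕ => ((((m.unpair.1.unpair.1.unpair.1,
        m.unpair.1.unpair.1.unpair.2), m.unpair.1.unpair.2), m.unpair.2) : ((ℕ × ℕ) × ℕ) × ℕ) := by
      have v : Primrec fun m : ℕ => m.unpair.1 := Primrec.fst.comp Primrec.unpair
      have w : Primrec fun m : ℕ => m.unpair.2 := Primrec.snd.comp Primrec.unpair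
      exact Primrec.pair (Primrec.pair (Primrec.pair (v.comp (v.comp v)) (w.comp (v.comp v)))
        (w.comp v)) w
    have henc : Computable fun z : ((ℕ × ℕ) × ℕ) × ℕ =>
        Nat.pair (Nat.pair (Nat.pair z.1.1.1 z.1.1.2) z.1.2) z.2 := by
      have v : Primrec fun z : ℕ × ℕ => Nat.pair z.1 z.2 :=
        Primrec₂.natPair.comp Primrec.fst Primrec.snd
      exact (v.comp (Primrec.pair (v.comp (Primrec.pair (v.comp (Primrec.fst.comp Primrec.fst))
        (Primrec.snd.comp Primrec.fst))) Primrec.snd)).to_comp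
    refine computable_of_excludes hdec henc ?_ ?_ hq ?_ h
    · rintro ⟨⟨⟨k, g⟩, N⟩, m⟩
      simp
    · intro m
      simp
    · rintro ⟨a, m⟩
      exact (more_iff (hpf a) m).trans (exists_congr fun t => (lt'_iff _ _).symm)
  tfae_finish

end Pool.Agent.Results.MP_f89135_nt.WeakAlgorithms
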